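import Pool.Agent.Helper78_HF.PZ

/-!
# Tiles for groups with a poly-Z quotient
-/

namespace Pool.Agent.HF.H78

open Pool.Agent.Glue Pool.Agent.FB Pool.Agent.CD Pool.Agent.RTF

variable {G : Type} [Group G]

/-- `C` is a subgroup of `K` that contains `N`, is normalised by `K` and has finite index in `K`. -/
structure Big (N K C : Subgroup G) : Prop where
  le : C ≤ K
  conj : ∀ k ∈ K, ∀ x ∈ C, k * x * k⁻¹ ∈ C
  fin : C.relIndex K ≠ 0
  ge : N ≤ C

/-- Foelner tiles of `K` modulo `N`. -/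
def FolK (N K : Subgroup G) : Prop := ∀ (E : Finset G), (∀ e ∈ E, e ∈ K) → ∀ ε : ℝ, 0 < ε →
  ∃ (B B0 : Finset G) (K1 : Subgroup G), B.Nonempty ∧ B0 ⊆ B ∧ (∀ b ∈ B, b ∈ K) ∧
    ((B.card : ℝ) - B0.card ≤ ε * B.card) ∧
    (∀ b ∈ B0, ∀ e ∈ E, ∃ b' ∈ B, b'⁻¹ * (b * e) ∈ N) ∧
    (∀ b ∈ B, ∀ b' ∈ B, b⁻¹ * b' ∈ N → b = b') ∧ Big N K K1 ∧
    ∀ L : Subgroup G, Big N K L → L ≤ K1 →
      ∃ H : Finset G, (∀ h ∈ H, h ∈ K) ∧ (∀ g ∈ K, ∃ h ∈ H, ∃ b ∈ B, (h * b)⁻¹ * g ∈ L) ∧
        ∀ h ∈ H, ∀ b ∈ B, ∀ h' ∈ H, ∀ b' ∈ B, (h * b)⁻¹ * (h' * b') ∈ L → h = h' ∧ b = b'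

theorem folK_base (N : Subgroup G) : FolK N N := by
  intro E hE ε hε
  refine ⟨{1}, {1}, N, by simp, le_rfl, ?_, ?_, ?_, ?_, ⟨le_rfl, ?_, ?_, le_rfl⟩, ?_⟩
  · intro b hb
    rw [Finset.mem_singleton.1 hb]
    exact N.one_mem
  · simp [hε.le]
  · intro b hb e he
    refine ⟨1, by simp, ?_⟩
    rw [Finset.mem_singleton.1 hb]
    simpa using hE e he
  · intro b hb b' hb' _
    rw [Finset.mem_singleton.1 hb, Finset.mem_singleton.1 hb']
  · intro k hk x hx
    exact N.mul_mem (N.mul_mem hk hx) (N.inv_mem hk)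
  · rw [Subgroup.relIndex_self]
    exact one_ne_zero
  · intro L hL hLN
    have : L = N := le_antisymm hLN hL.ge
    subst this
    refine ⟨{1}, ?_, ?_, ?_⟩
    · intro h hh
      rw [Finset.mem_singleton.1 hh]
      exact L.one_mem
    · intro g hg
      exact ⟨1, by simp, 1, by simp, by simpa using hg⟩
    · intro h hh b hb h' hh' b' hb' _
      rw [Finset.mem_singleton.1 hh, Finset.mem_singleton.1 hh', Finset.mem_singleton.1 hb,
        Finset.mem_singleton.1 hb']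
      exact ⟨rfl, rfl⟩

theorem folK_step {N K K' : Subgroup G} {χ : G → ℤ} {t : G} (hN : N.Normal)
    (S : Stp K K' χ t) (hfg : Fgm N K') (ih : FolK N K') : FolK N K := by
  classical
  intro E hE ε hε
  -- the length in the direction of `t`
  obtain ⟨D, hD⟩ : ∃ D : ℕ, ∀ e ∈ E, |χ e| ≤ D := by
    refine ⟨E.sup fun e => (χ e).natAbs, ?_⟩
    intro e he
    rw [Int.abs_eq_natAbs]
    exact_mod_cast Finset.le_sup (f := fun e => (χ e).natAbs) he
  obtain ⟨m, hm0, hm⟩ : ∃ m : ℕ, 0 < m ∧ 2 * (D : ℝ) ≤ (ε / 2) * m := by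
    obtain ⟨m, hm⟩ := exists_nat_gt (2 * (D : ℝ) / (ε / 2))
    have h2 : 0 < ε / 2 := by positivity
    refine ⟨m + 1, Nat.succ_pos _, ?_⟩
    rw [div_lt_iff₀ h2] at hm
    push_cast
    nlinarith
  let E' : Finset G := (Finset.range m ×ˢ E).image fun x =>
    t ^ (x.1 : ℤ) * x.2 * t ^ (-((x.1 : ℤ) + χ x.2))
  have hE' : ∀ e ∈ E', e ∈ K' := by
    intro e he
    obtain ⟨⟨j, e⟩, hje, rfl⟩ := Finset.mem_image.1 he
    have heK := hE e (Finset.mem_product.1 hje).2
    refine S.mem' (K.mul_mem (K.mul_mem (S.tmem _) heK) (S.tmem _)) ?_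
    rw [S.mul _ (K.mul_mem (S.tmem _) heK) _ (S.tmem _), S.mul _ (S.tmem _) _ heK, S.chi_t,
      S.chi_t]
    ring
  obtain ⟨B', B0', K1', hBne, hB0, hBK, hcard, htile, hinj, hK1, hcov⟩ :=
    ih E' hE' (ε / 2) (by positivity)
  obtain ⟨C, hC1, hC2, hC3, hC4, hC5, hC6⟩ := lift S hN hfg hK1.le hK1.conj hK1.ge hK1.fin m hm0
  let f : G × ℕ → G := fun x => x.1 * t ^ (x.2 : ℤ)
  have hchif : ∀ b ∈ B', ∀ j : ℕ, χ (b * t ^ (j : ℤ)) = j := by
    intro b hb j
    rw [S.mul _ (S.le (hBK b hb)) _ (S.tmem _), S.chi_zero (hBK b hb), S.chi_t, zero_add]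
  have hfinj : ∀ b ∈ B', ∀ b' ∈ B', ∀ j j' : ℕ, b * t ^ (j : ℤ) = b' * t ^ (j' : ℤ) →
      b = b' ∧ j = j' := by
    intro b hb b' hb' j j' h
    have h1 := congrArg χ h
    rw [hchif b hb, hchif b' hb'] at h1
    have h2 : j = j' := by exact_mod_cast h1
    subst h2
    exact ⟨mul_right_cancel h, rfl⟩
  refine ⟨(B' ×ˢ Finset.range m).image f, (B0' ×ˢ Finset.Ico D (m - D)).image f, C, ?_, ?_, ?_,
    ?_, ?_, ?_, ⟨hC1, hC2, hC3, hC4⟩, ?_⟩
  · exact (hBne.product (Finset.nonempty_range_iff.2 hm0.ne')).image f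
  · refine Finset.image_subset_image (Finset.product_subset_product hB0 ?_)
    intro j hj
    rw [Finset.mem_Ico] at hj
    rw [Finset.mem_range]
    omega
  · intro b hb
    obtain ⟨⟨b', j⟩, hbj, rfl⟩ := Finset.mem_image.1 hb
    exact K.mul_mem (S.le (hBK b' (Finset.mem_product.1 hbj).1)) (S.tmem _)
  · rw [Finset.card_image_of_injOn, Finset.card_image_of_injOn, Finset.card_product,
      Finset.card_product, Finset.card_range, Nat.card_Ico]
    · have h1 : ((m - D - D : ℕ) : ℝ) ≥ (m : ℝ) - 2 * D := by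
        have : m ≤ (m - D - D) + 2 * D := by omega
        have h2 : (m : ℝ) ≤ ((m - D - D : ℕ) : ℝ) + 2 * D := by exact_mod_cast this
        linarith
      have hB0c : ((B0'.card : ℕ) : ℝ) ≤ B'.card := by exact_mod_cast Finset.card_le_card hB0
      have h3 : (B0'.card : ℝ) * ((m : ℝ) - 2 * D) ≤ B0'.card * ((m - D - D : ℕ) : ℝ) :=
        mul_le_mul_of_nonneg_left h1 (Nat.cast_nonneg _)
      have h4 : (m : ℝ) * ((B'.card : ℝ) - B0'.card) ≤ m * (ε / 2 * B'.card) :=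
        mul_le_mul_of_nonneg_left hcard (Nat.cast_nonneg _)
      have h5 : 2 * (D : ℝ) * B0'.card ≤ 2 * D * B'.card :=
        mul_le_mul_of_nonneg_left hB0c (by positivity)
      have h6 : 2 * (D : ℝ) * B'.card ≤ (ε / 2) * m * B'.card :=
        mul_le_mul_of_nonneg_right hm (Nat.cast_nonneg _)
      push_cast
      nlinarith
    · rintro ⟨b, j⟩ hb ⟨b', j'⟩ hb' h
      obtain ⟨h1, h2⟩ := hfinj b (hB0 (Finset.mem_product.1 hb).1) b'
        (hB0 (Finset.mem_product.1 hb').1) j j' h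
      rw [h1, h2]
    · rintro ⟨b, j⟩ hb ⟨b', j'⟩ hb' h
      obtain ⟨h1, h2⟩ := hfinj b (Finset.mem_product.1 hb).1 b'
        (Finset.mem_product.1 hb').1 j j' h
      rw [h1, h2]
  · intro b hb e he
    obtain ⟨⟨b, j⟩, hbj, rfl⟩ := Finset.mem_image.1 hb
    obtain ⟨hb0, hj⟩ := Finset.mem_product.1 hbj
    rw [Finset.mem_Ico] at hj
    have hDe := abs_le.1 (hD e he)
    obtain ⟨b', hb', h1⟩ := htile b hb0 (t ^ (j : ℤ) * e * t ^ (-((j : ℤ) + χ e)))
      (Finset.mem_image.2 ⟨(j, e), Finset.mem_product.2 ⟨Finset.mem_range.2 (by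
        simp only at hj
        omega), he⟩, rfl⟩)
    refine ⟨b' * t ^ ((((j : ℤ) + χ e).toNat : ℕ) : ℤ), ?_, ?_⟩
    · refine Finset.mem_image.2 ⟨(b', ((j : ℤ) + χ e).toNat), Finset.mem_product.2
        ⟨hb', Finset.mem_range.2 ?_⟩, rfl⟩
      simp only at hj ⊢
      omega
    · have e0 : ((((j : ℤ) + χ e).toNat : ℕ) : ℤ) = (j : ℤ) + χ e := by
        simp only at hj
        omega
      rw [e0]
      have e1 : (b' * t ^ ((j : ℤ) + χ e))⁻¹ * (f (b, j) * e) = t ^ (-((j : ℤ) + χ e)) *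
          (b'⁻¹ * (b * (t ^ (j : ℤ) * e * t ^ (-((j : ℤ) + χ e))))) *
          (t ^ (-((j : ℤ) + χ e)))⁻¹ := by
        simp only [f]
        group
      rw [e1]
      exact hN.conj_mem _ h1 _
  · intro b hb b' hb' h
    obtain ⟨⟨b, j⟩, hbj, rfl⟩ := Finset.mem_image.1 hb
    obtain ⟨⟨b', j'⟩, hbj', rfl⟩ := Finset.mem_image.1 hb'
    have hb1 := (Finset.mem_product.1 hbj).1
    have hb2 := (Finset.mem_product.1 hbj').1
    simp only [f] at h ⊢
    simp only at hb1 hb2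
    have hK1' : b * t ^ (j : ℤ) ∈ K := K.mul_mem (S.le (hBK b hb1)) (S.tmem _)
    have hK2' : b' * t ^ (j' : ℤ) ∈ K := K.mul_mem (S.le (hBK b' hb2)) (S.tmem _)
    have h1 : χ ((b * t ^ (j : ℤ))⁻¹ * (b' * t ^ (j' : ℤ))) = 0 :=
      S.chi_zero (hK1.le (hK1.ge h))
    rw [S.mul _ (K.inv_mem hK1') _ hK2', S.chi_inv hK1', hchif b hb1, hchif b' hb2] at h1
    have h2 : j = j' := by omega
    subst h2
    have h3 : b⁻¹ * b' ∈ N := by
      have := hN.conj_mem _ h (t ^ (j : ℤ))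
      have e1 : t ^ (j : ℤ) * ((b * t ^ (j : ℤ))⁻¹ * (b' * t ^ (j : ℤ))) * (t ^ (j : ℤ))⁻¹ =
        b⁻¹ * b' := by group
      rwa [e1] at this
    rw [hinj b hb1 b' hb2 h3]
  · -- the tilings
    intro L hL hLC
    have hL' : Big N K' (L ⊓ K') := by
      refine ⟨inf_le_right, ?_, ?_, le_inf hL.ge (hK1.ge.trans hK1.le)⟩
      · intro k hk x hx
        exact ⟨hL.conj k (S.le hk) x hx.1, S.conj (S.le hk) hx.2⟩
      · rw [Subgroup.inf_relIndex_right]
        exact fun h => hL.fin (Subgroup.relIndex_eq_zero_of_le_right S.le h)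
    obtain ⟨H', hH'K, hH'c, hH'u⟩ := hcov (L ⊓ K') hL' fun x hx => hC5 x (hLC hx.1) hx.2
    -- the values of the character on `L`
    obtain ⟨M, hM0, hmM, hMd, l, hlL, hl⟩ : ∃ M : ℕ, 0 < M ∧ m ∣ M ∧ (∀ x ∈ L, (M : ℤ) ∣ χ x) ∧
        ∃ l ∈ L, χ l = M := by
      have hex : ∃ n : ℕ, 0 < n ∧ ∃ a ∈ L, χ a = n := by
        obtain ⟨R, hR⟩ := (fc_iff L K).1 hL.fin
        obtain ⟨i, j, hij, h⟩ : ∃ i j : ℕ, i < j ∧ (t ^ (i : ℤ))⁻¹ * t ^ (j : ℤ) ∈ L := by
          have hf : ∀ i : ℕ, ∃ r : {r // r ∈ R}, r.1⁻¹ * t ^ (i : ℤ) ∈ L := by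
            intro i
            obtain ⟨r, hr, h⟩ := hR _ (S.tmem i)
            exact ⟨⟨r, hr⟩, h⟩
          choose g hg using hf
          obtain ⟨i, j, hij, h⟩ := Finite.exists_ne_map_eq_of_infinite g
          have key : ∀ i j : ℕ, g i = g j → (t ^ (i : ℤ))⁻¹ * t ^ (j : ℤ) ∈ L := by
            intro i j h
            have h1 := hg i
            have h2 := hg j
            rw [← h] at h2
            have := L.mul_mem (L.inv_mem h1) h2
            rwa [mul_inv_rev, inv_inv, mul_assoc, mul_inv_cancel_left] at this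
          rcases lt_or_gt_of_ne hij with h1 | h1
          · exact ⟨i, j, h1, key i j h⟩
          · exact ⟨j, i, h1, key j i h.symm⟩
        refine ⟨j - i, by omega, _, h, ?_⟩
        rw [S.mul _ (K.inv_mem (S.tmem _)) _ (S.tmem _), S.chi_inv (S.tmem _), S.chi_t, S.chi_t]
        push_cast [Nat.cast_sub hij.le]
        ring
      obtain ⟨hd0, l, hlL, hl⟩ := Nat.find_spec hex
      have hmin : ∀ n : ℕ, n < Nat.find hex → ¬ (0 < n ∧ ∃ a ∈ L, χ a = n) :=
        fun n hn => Nat.find_min hex hn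
      refine ⟨Nat.find hex, hd0, ?_, ?_, l, hlL, hl⟩
      · have := hC6 l (hLC hlL)
        rw [hl] at this
        exact_mod_cast this
      · intro x hx
        by_contra hnd
        have hpow : ∀ n : ℤ, χ (l ^ n) = n * (Nat.find hex : ℕ) := by
          have hnat : ∀ n : ℕ, χ (l ^ n) = n * (Nat.find hex : ℕ) := by
            intro n
            induction n with
            | zero => simp [S.chi_one]
            | succ n ihn =>
              rw [pow_succ, S.mul _ (K.pow_mem (hL.le hlL) n) _ (hL.le hlL), ihn, hl]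
              push_cast
              ring
          intro n
          rcases Int.eq_nat_or_neg n with ⟨k, rfl | rfl⟩
          · rw [zpow_natCast, hnat]
          · rw [zpow_neg, zpow_natCast, S.chi_inv (K.pow_mem (hL.le hlL) k), hnat]
            ring
        set d := Nat.find hex with hd
        have h3 : χ (x * l ^ (-(χ x / d))) = χ x % d := by
          rw [S.mul _ (hL.le hx) _ (K.zpow_mem (hL.le hlL) _), hpow]
          have := Int.emod_add_mul_ediv (χ x) d
          linarith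
        have h4 : 0 ≤ χ x % d := Int.emod_nonneg _ (by omega)
        have h5 : χ x % d < d := Int.emod_lt_of_pos _ (by omega)
        have h6 : χ x % d ≠ 0 := fun h => hnd (Int.dvd_of_emod_eq_zero h)
        refine hmin (χ x % d).toNat (by omega) ⟨by omega, x * l ^ (-(χ x / d)),
          L.mul_mem hx (L.zpow_mem hlL _), ?_⟩
        rw [h3]
        omega
    obtain ⟨q0, hq0⟩ := hmM
    have hlK : l ∈ K := hL.le hlL
    have hpowl : ∀ n : ℤ, χ (l ^ n) = n * (M : ℕ) := by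
      have hnat : ∀ n : ℕ, χ (l ^ n) = n * (M : ℕ) := by
        intro n
        induction n with
        | zero => simp [S.chi_one]
        | succ n ihn =>
          rw [pow_succ, S.mul _ (K.pow_mem hlK n) _ hlK, ihn, hl]
          push_cast
          ring
      intro n
      rcases Int.eq_nat_or_neg n with ⟨k, rfl | rfl⟩
      · rw [zpow_natCast, hnat]
      · rw [zpow_neg, zpow_natCast, S.chi_inv (K.pow_mem hlK k), hnat]
        ring
    refine ⟨(H' ×ˢ Finset.range q0).image fun x => t ^ ((m * x.2 : ℕ) : ℤ) * x.1, ?_, ?_, ?_⟩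
    · intro h hh
      obtain ⟨⟨h, q⟩, hhq, rfl⟩ := Finset.mem_image.1 hh
      exact K.mul_mem (S.tmem _) (S.le (hH'K h (Finset.mem_product.1 hhq).1))
    · intro g hg
      have hMpos : (0 : ℤ) < M := by exact_mod_cast hM0
      have hmpos : (0 : ℤ) < m := by exact_mod_cast hm0
      have i1 : 0 ≤ χ g % M := Int.emod_nonneg _ (by omega)
      have i2 : χ g % M < M := Int.emod_lt_of_pos _ hMpos
      have i3 : χ g % M + M * (χ g / M) = χ g := Int.emod_add_mul_ediv _ _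
      set i := χ g % M with hi
      have i4 : 0 ≤ i % m := Int.emod_nonneg _ (by omega)
      have i5 : i % m < m := Int.emod_lt_of_pos _ hmpos
      have i6 : i % m + m * (i / m) = i := Int.emod_add_mul_ediv _ _
      have i7 : 0 ≤ i / m := Int.ediv_nonneg i1 hmpos.le
      have i8 : i / m < q0 := by
        rw [Int.ediv_lt_iff_lt_mul hmpos]
        have : (M : ℤ) = q0 * m := by
          rw [hq0]
          push_cast
          ring
        omega
      have hy : t ^ (-(m * (i / m))) * (g * l ^ (-(χ g / M))) * t ^ (-(i % m)) ∈ K' := by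
        have k1 : g * l ^ (-(χ g / M)) ∈ K := K.mul_mem hg (K.zpow_mem hlK _)
        refine S.mem' (K.mul_mem (K.mul_mem (S.tmem _) k1) (S.tmem _)) ?_
        rw [S.mul _ (K.mul_mem (S.tmem _) k1) _ (S.tmem _), S.mul _ (S.tmem _) _ k1, S.chi_t,
          S.chi_t, S.mul _ hg _ (K.zpow_mem hlK _), hpowl]
        linarith
      obtain ⟨h, hh, b, hb, hhb⟩ := hH'c _ hy
      refine ⟨t ^ ((m * (i / m).toNat : ℕ) : ℤ) * h, ?_, b * t ^ (((i % m).toNat : ℕ) : ℤ), ?_, ?_⟩
      · refine Finset.mem_image.2 ⟨(h, (i / m).toNat), Finset.mem_product.2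
          ⟨hh, Finset.mem_range.2 ?_⟩, rfl⟩
        simp only
        omega
      · refine Finset.mem_image.2 ⟨(b, (i % m).toNat), Finset.mem_product.2
          ⟨hb, Finset.mem_range.2 ?_⟩, rfl⟩
        simp only
        omega
      · have e1 : (((i % m).toNat : ℕ) : ℤ) = i % m := Int.toNat_of_nonneg i4
        have e2 : ((m * (i / m).toNat : ℕ) : ℤ) = m * (i / m) := by
          push_cast
          rw [Int.toNat_of_nonneg i7]
        rw [e1, e2]
        have e3 : (t ^ (m * (i / m)) * h * (b * t ^ (i % m)))⁻¹ * g =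
            (t ^ (-(i % m)) * ((h * b)⁻¹ * (t ^ (-(m * (i / m))) * (g * l ^ (-(χ g / M))) *
            t ^ (-(i % m)))) * (t ^ (-(i % m)))⁻¹) * l ^ (χ g / M) := by
          simp only [zpow_neg]
          group
        rw [e3]
        exact L.mul_mem (hL.conj _ (S.tmem _) _ hhb.1) (L.zpow_mem hlL _)
    · intro h1 hh1 b1 hb1 h2 hh2 b2 hb2 hL1
      obtain ⟨⟨h, q⟩, hhq, rfl⟩ := Finset.mem_image.1 hh1
      obtain ⟨⟨h', q'⟩, hhq', rfl⟩ := Finset.mem_image.1 hh2
      obtain ⟨⟨b, r⟩, hbr, rfl⟩ := Finset.mem_image.1 hb1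
      obtain ⟨⟨b', r'⟩, hbr', rfl⟩ := Finset.mem_image.1 hb2
      obtain ⟨hh, hq⟩ := Finset.mem_product.1 hhq
      obtain ⟨hh', hq'⟩ := Finset.mem_product.1 hhq'
      obtain ⟨hb, hr⟩ := Finset.mem_product.1 hbr
      obtain ⟨hb', hr'⟩ := Finset.mem_product.1 hbr'
      simp only [Finset.mem_range] at hh hq hh' hq' hb hr hb' hr'
      simp only [f] at hL1 ⊢
      have c1 : ∀ h ∈ H', ∀ b ∈ B', ∀ q r : ℕ,
          t ^ ((m * q : ℕ) : ℤ) * h * (b * t ^ (r : ℤ)) ∈ K ∧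
          χ (t ^ ((m * q : ℕ) : ℤ) * h * (b * t ^ (r : ℤ))) = m * q + r := by
        intro h hh b hb q r
        have k1 : t ^ ((m * q : ℕ) : ℤ) * h ∈ K := K.mul_mem (S.tmem _) (S.le (hH'K h hh))
        have k2 : b * t ^ (r : ℤ) ∈ K := K.mul_mem (S.le (hBK b hb)) (S.tmem _)
        refine ⟨K.mul_mem k1 k2, ?_⟩
        rw [S.mul _ k1 _ k2, hchif b hb, S.mul _ (S.tmem _) _ (S.le (hH'K h hh)),
          S.chi_zero (hH'K h hh), S.chi_t]
        push_cast
        ring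
      obtain ⟨k1, k2⟩ := c1 h hh b hb q r
      obtain ⟨k3, k4⟩ := c1 h' hh' b' hb' q' r'
      have hd := hMd _ hL1
      rw [S.mul _ (K.inv_mem k1) _ k3, S.chi_inv k1, k2, k4] at hd
      have hlt : ∀ q r : ℕ, q < q0 → r < m → m * q + r < M := by
        intro q r hq hr
        have h3 : m * q + r < m * (q + 1) := by
          rw [mul_add, mul_one]
          omega
        have h4 : m * (q + 1) ≤ m * q0 := Nat.mul_le_mul_left m hq
        omega
      have l1 := hlt q r hq hr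
      have l2 := hlt q' r' hq' hr'
      have heq : m * q + r = m * q' + r' := by
        have h5 : -((m : ℤ) * q + r) + (m * q' + r') = 0 := by
          refine Int.eq_zero_of_abs_lt_dvd hd ?_
          rw [abs_lt]
          constructor
          · have : ((m * q + r : ℕ) : ℤ) < M := by exact_mod_cast l1
            push_cast at this
            have h7 : (0 : ℤ) ≤ (m : ℤ) * q' + r' := by positivity
            linarith
          · have : ((m * q' + r' : ℕ) : ℤ) < M := by exact_mod_cast l2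
            push_cast at this
            have h7 : (0 : ℤ) ≤ (m : ℤ) * q + r := by positivity
            linarith
        have h6 : ((m * q + r : ℕ) : ℤ) = ((m * q' + r' : ℕ) : ℤ) := by
          push_cast
          linarith
        exact_mod_cast h6
      have hqq : q = q' := by
        have h7 := congrArg (· / m) heq
        simp only [Nat.mul_add_div hm0, Nat.div_eq_of_lt hr, Nat.div_eq_of_lt hr', add_zero] at h7
        exact h7
      subst hqq
      have hrr : r = r' := by omega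
      subst hrr
      have h8 : (h * b)⁻¹ * (h' * b') ∈ L ⊓ K' := by
        constructor
        · have := hL.conj _ (S.tmem (r : ℤ)) _ hL1
          have e1 : t ^ (r : ℤ) * ((t ^ ((m * q : ℕ) : ℤ) * h * (b * t ^ (r : ℤ)))⁻¹ *
              (t ^ ((m * q : ℕ) : ℤ) * h' * (b' * t ^ (r : ℤ)))) * (t ^ (r : ℤ))⁻¹ =
              (h * b)⁻¹ * (h' * b') := by group
          rwa [e1] at this
        · exact K'.mul_mem (K'.inv_mem (K'.mul_mem (hH'K h hh) (hBK b hb)))
            (K'.mul_mem (hH'K h' hh') (hBK b' hb'))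
      obtain ⟨h9, h10⟩ := hH'u h hh b hb h' hh' b' hb' h8
      rw [h9, h10]
      exact ⟨rfl, rfl⟩

theorem folK {N K : Subgroup G} (hN : N.Normal) (h : PolyZ N K) : FolK N K :=
  (PolyZ.ind (N := N) (Q := fun K => Fgm N K ∧ FolK N K)
    ⟨⟨∅, by simp, fun L hL _ => hL⟩, folK_base N⟩
    (fun K K' χ t S _ h => ⟨fgm_step S h.1, folK_step hN S h.1 h.2⟩) h).2.2

/-- Foelner tiles, in the form of `RTF.FolStmt`. -/
theorem fol {N : Subgroup G} (hN : N.Normal) (h : PolyZ N ⊤) (E : Finset G) (ε : ℝ) (hε : 0 < ε) :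
    ∃ (B B0 : Finset G) (K1 : Subgroup G), B.Nonempty ∧ B0 ⊆ B ∧
    ((B.card : ℝ) - B0.card ≤ ε * B.card) ∧
    (∀ b ∈ B0, ∀ e ∈ E, ∃ b' ∈ B, b'⁻¹ * (b * e) ∈ N) ∧
    (∀ b ∈ B, ∀ b' ∈ B, b⁻¹ * b' ∈ N → b = b') ∧
    K1.Normal ∧ K1.FiniteIndex ∧ N ≤ K1 ∧
    ∀ K : Subgroup G, K.Normal → K.FiniteIndex → N ≤ K → K ≤ K1 →
      ∃ H : Finset G, (∀ g : G, ∃ h ∈ H, ∃ b ∈ B, (h * b)⁻¹ * g ∈ K) ∧
        ∀ h ∈ H, ∀ b ∈ B, ∀ h' ∈ H, ∀ b' ∈ B, (h * b)⁻¹ * (h' * b') ∈ K → h = h' ∧ b = b' := by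
  obtain ⟨B, B0, K1, h1, h2, -, h4, h5, h6, h7, h8⟩ :=
    folK hN h E (fun e _ => Subgroup.mem_top e) ε hε
  refine ⟨B, B0, K1, h1, h2, h4, h5, h6,
    ⟨fun x hx k => h7.conj k (Subgroup.mem_top k) x hx⟩, ⟨?_⟩, h7.ge, ?_⟩
  · have := h7.fin
    rwa [Subgroup.relIndex_top_right] at this
  · intro K hKn hKf hNK hKK1
    obtain ⟨H, -, h9, h10⟩ := h8 K ⟨le_top, fun k _ x hx => hKn.conj_mem x hx k, by
      rw [Subgroup.relIndex_top_right]
      exact hKf.index_ne_zero, hNK⟩ hKK1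
    exact ⟨H, fun g => h9 g (Subgroup.mem_top g), h10⟩

end Pool.Agent.HF.H78
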