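import Pool.Agent.HF.Stmts
import Pool.Agent.Helper78_HF.Fol

/-!
# Squad HF, module PZR: poly-infinite-cyclic groups have deep finite quotients
-/

namespace Pool.Agent.HF.H78

open Pool.Agent.Glue Pool.Agent.FB Pool.Agent.CD Pool.Agent.RTF

theorem polyZ_of_isPZ {P : Type} [Group P] (h : IsPZ P) : PolyZ (⊥ : Subgroup P) ⊤ := by
  obtain ⟨T⟩ := h
  have key : ∀ i, PolyZ (⊥ : Subgroup P) (T.N i) := by
    intro i
    induction i with
    | zero =>
      rw [T.bot]
      exact PolyZ.base
    | succ i ih =>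
      refine PolyZ.step (T.N (i + 1)) (T.N i) (T.c i) (fun a ha b hb => T.c_mul i a ha b hb) ?_ ih
      intro a
      constructor
      · intro ha
        exact ⟨T.mono i ha, (T.c_ker i a (T.mono i ha)).2 ha⟩
      · rintro ⟨ha, h0⟩
        exact (T.c_ker i a ha).1 h0
  rw [← T.top]
  exact key T.m

theorem pzr : PzrStmt := by
  intro P _ hP S hS M₀ hM₀
  obtain ⟨K, h1, h2, -, h4⟩ := sepf (N := (⊥ : Subgroup P)) inferInstance (polyZ_of_isPZ hP) S (by
    intro s hs h
    rw [Subgroup.mem_bot] at h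
    subst h
    exact hS hs)
  refine ⟨K ⊓ M₀.normalCore, inferInstance, inferInstance,
    inf_le_right.trans (Subgroup.normalCore_le M₀), ?_⟩
  intro s hs h5
  exact h4 s hs h5.1

end Pool.Agent.HF.H78
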