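import Pool.Agent.Helper78_HF.Til
import Pool.Agent.Helper78_HF.Pzr

/-!
# Squad HF, module PZF: multiplication is almost injective in finite quotients
-/

namespace Pool.Agent.HF.H78

open Pool.Agent.Glue Pool.Agent.FB Pool.Agent.CD Pool.Agent.RTF

section

variable {P : Type} [Group P]

/-- The matrix of the right multiplication. -/
noncomputable def aR (s : MonoidAlgebra F2 P) : Fin 1 → Fin 1 → P →₀ F2 :=
  fun _ _ => s.coeff.mapDomain fun h => h⁻¹

/-- The matrix of the left multiplication. -/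
noncomputable def aL (s : MonoidAlgebra F2 P) : Fin 1 → Fin 1 → P →₀ F2 := fun _ _ => s.coeff

theorem aR_sum (s : MonoidAlgebra F2 P) (l l' : Fin 1) (f : P → F2) :
    ((aR s l l').sum fun h c => c * f h) = s.coeff.sum fun h c => c * f h⁻¹ := by
  unfold aR
  rw [Finsupp.sum_mapDomain_index]
  · intro b
    rw [zero_mul]
  · intro b m n
    rw [add_mul]

theorem red_coeff_sum (M : Subgroup P) [M.Normal] (s : MonoidAlgebra F2 P) (f : P ⧸ M → F2) :
    ((red M s).coeff.sum fun h c => c * f h) = s.coeff.sum fun h c => c * f (h : P ⧸ M) := by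
  unfold red MonoidAlgebra.mapDomain
  rw [MonoidAlgebra.coeff_ofCoeff, Finsupp.sum_mapDomain_index]
  · intro b
    rw [zero_mul]
  · intro b m n
    rw [add_mul]

theorem ker_right_le (M : Subgroup P) [M.Normal] [M.FiniteIndex] (s : MonoidAlgebra F2 P) :
    Module.finrank F2 (LinearMap.ker (LinearMap.mulRight F2 (red M s))) ≤
      Module.finrank F2 (kerQ M (aR s)) := by
  have : Finite (P ⧸ M) := inferInstance
  let Φ : LinearMap.ker (LinearMap.mulRight F2 (red M s)) →ₗ[F2] kerQ M (aR s) :=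
    { toFun := fun x => ⟨fun _ q => x.1.coeff q, by
        intro l g
        rw [Fin.sum_univ_one, aR_sum s l 0 (fun h => x.1.coeff ((g * h : P) : P ⧸ M))]
        have h1 : x.1 * red M s = 0 := x.2
        have h2 := congrArg (fun y : MonoidAlgebra F2 (P ⧸ M) => y.coeff (g : P ⧸ M)) h1
        rw [MonoidAlgebra.coeff_mul_apply_right] at h2
        have h3 := red_coeff_sum M s (fun h => x.1.coeff ((g : P ⧸ M) * h⁻¹))
        simp only [mul_comm] at h2 h3 ⊢
        rw [h3] at h2
        exact h2⟩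
      map_add' := fun x y => rfl
      map_smul' := fun c x => rfl }
  refine LinearMap.finrank_le_finrank_of_injective (f := Φ) ?_
  intro x y h
  apply Subtype.ext
  apply MonoidAlgebra.coeff_injective
  ext q
  exact congrFun (congrFun (congrArg Subtype.val h) 0) q

theorem ker_left_le (M : Subgroup P) [M.Normal] [M.FiniteIndex] (s : MonoidAlgebra F2 P) :
    Module.finrank F2 (LinearMap.ker (LinearMap.mulLeft F2 (red M s))) ≤
      Module.finrank F2 (kerQ M (aL s)) := by
  have : Finite (P ⧸ M) := inferInstance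
  let Φ : LinearMap.ker (LinearMap.mulLeft F2 (red M s)) →ₗ[F2] kerQ M (aL s) :=
    { toFun := fun x => ⟨fun _ q => x.1.coeff q⁻¹, by
        intro l g
        rw [Fin.sum_univ_one]
        have h1 : red M s * x.1 = 0 := x.2
        have h2 := congrArg (fun y : MonoidAlgebra F2 (P ⧸ M) => y.coeff ((g : P ⧸ M)⁻¹)) h1
        rw [MonoidAlgebra.coeff_mul_apply_left] at h2
        have h3 := red_coeff_sum M s (fun h => x.1.coeff (h⁻¹ * (g : P ⧸ M)⁻¹))
        rw [h3] at h2
        have h4 : ∀ h : P, (((g * h : P) : P ⧸ M))⁻¹ = ((h : P ⧸ M))⁻¹ * (g : P ⧸ M)⁻¹ := by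
          intro h
          rw [QuotientGroup.mk_mul, mul_inv_rev]
        change ((s.coeff).sum fun h c => c * x.1.coeff (((g * h : P) : P ⧸ M))⁻¹) = 0
        simp only [h4]
        exact h2⟩
      map_add' := fun x y => rfl
      map_smul' := fun c x => rfl }
  refine LinearMap.finrank_le_finrank_of_injective (f := Φ) ?_
  intro x y h
  apply Subtype.ext
  apply MonoidAlgebra.coeff_injective
  ext q
  have h5 := congrFun (congrFun (congrArg Subtype.val h) 0) q⁻¹
  change x.1.coeff (q⁻¹)⁻¹ = y.1.coeff (q⁻¹)⁻¹ at h5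
  rwa [inv_inv] at h5

/-- The element of the group ring given by a function on the group modulo the trivial subgroup. -/
theorem exists_elt (f : (P ⧸ (⊥ : Subgroup P)) → F2) (hf : (Function.support f).Finite)
    (e : P → P) (he : Function.Injective e) :
    ∃ x : MonoidAlgebra F2 P, ∀ g, x.coeff g = f (e g : P ⧸ (⊥ : Subgroup P)) := by
  classical
  have hinj : Function.Injective fun g : P => (e g : P ⧸ (⊥ : Subgroup P)) := by
    intro g h hgh
    have h1 := QuotientGroup.eq.1 hgh
    rw [Subgroup.mem_bot] at h1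
    exact he (inv_mul_eq_one.1 h1)
  have hfin : {g : P | f (e g : P ⧸ (⊥ : Subgroup P)) ≠ 0}.Finite :=
    Set.Finite.preimage (f := fun g : P => (e g : P ⧸ (⊥ : Subgroup P))) hinj.injOn hf
  refine ⟨MonoidAlgebra.ofCoeff (Finsupp.onFinset hfin.toFinset
    (fun g => f (e g : P ⧸ (⊥ : Subgroup P))) ?_), ?_⟩
  · intro g hg
    rw [Set.Finite.mem_toFinset]
    exact hg
  · intro g
    rfl

theorem inj_right (hD : ∀ a b : MonoidAlgebra F2 P, a * b = 0 → a = 0 ∨ b = 0)
    (s : MonoidAlgebra F2 P) (hs : s ≠ 0) (f : Fin 1 → (P ⧸ (⊥ : Subgroup P)) → F2)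
    (hf : ∀ l, (Function.support (f l)).Finite) (hk : f ∈ kerQ ⊥ (aR s)) : f = 0 := by
  obtain ⟨x, hx⟩ := exists_elt (f 0) (hf 0) id Function.injective_id
  have h1 : x * s = 0 := by
    apply MonoidAlgebra.coeff_injective
    ext g
    rw [MonoidAlgebra.coeff_mul_apply_right]
    have h2 := hk 0 g
    rw [Fin.sum_univ_one, aR_sum s 0 0 (fun h => f 0 ((g * h : P) : P ⧸ (⊥ : Subgroup P)))] at h2
    simp only [hx, id, mul_comm] at h2 ⊢
    exact h2
  have h2 : x = 0 := (hD x s h1).resolve_right hs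
  funext l q
  induction q using QuotientGroup.induction_on with
  | H g =>
    have h3 := hx g
    rw [h2] at h3
    rw [Subsingleton.elim l 0]
    exact h3.symm

theorem inj_left (hD : ∀ a b : MonoidAlgebra F2 P, a * b = 0 → a = 0 ∨ b = 0)
    (s : MonoidAlgebra F2 P) (hs : s ≠ 0) (f : Fin 1 → (P ⧸ (⊥ : Subgroup P)) → F2)
    (hf : ∀ l, (Function.support (f l)).Finite) (hk : f ∈ kerQ ⊥ (aL s)) : f = 0 := by
  obtain ⟨x, hx⟩ := exists_elt (f 0) (hf 0) (fun g => g⁻¹) inv_injective
  have h1 : s * x = 0 := by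
    apply MonoidAlgebra.coeff_injective
    ext g
    rw [MonoidAlgebra.coeff_mul_apply_left]
    have h2 := hk 0 g⁻¹
    rw [Fin.sum_univ_one] at h2
    change ((s.coeff).sum fun h c => c * f 0 ((g⁻¹ * h : P) : P ⧸ (⊥ : Subgroup P))) = 0 at h2
    simp only [hx, mul_inv_rev, inv_inv]
    exact h2
  have h2 : x = 0 := (hD s x h1).resolve_left hs
  funext l q
  induction q using QuotientGroup.induction_on with
  | H g =>
    have h3 := hx g⁻¹
    rw [h2] at h3
    rw [Subsingleton.elim l 0]
    simp only [inv_inv] at h3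
    exact h3.symm

end

theorem pzf (hD : PzdStmt) : PzfStmt := by
  intro P _ hP s hs ε hε
  have hpz := polyZ_of_isPZ hP
  obtain ⟨K1, h1, h2, -, h3⟩ := til (N := (⊥ : Subgroup P)) inferInstance hpz 1 (aR s)
    (inj_right (hD P hP) s hs) ε hε
  obtain ⟨K2, h4, h5, -, h6⟩ := til (N := (⊥ : Subgroup P)) inferInstance hpz 1 (aL s)
    (inj_left (hD P hP) s hs) ε hε
  refine ⟨K1 ⊓ K2, inferInstance, ?_⟩
  intro M hM hMf hMK
  constructor
  · refine le_trans ?_ (h6 M hM hMf bot_le (hMK.trans inf_le_right))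
    exact_mod_cast ker_left_le M s
  · refine le_trans ?_ (h3 M hM hMf bot_le (hMK.trans inf_le_left))
    exact_mod_cast ker_right_le M s

end Pool.Agent.HF.H78
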