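import Pool.Agent.RTF.Defs

/-!
# Poly-Z quotients: finite generation, lifting of finite index subgroups, separation

All groups are subgroups of one group `G`, and `N` is a normal subgroup of `G`.
-/

namespace Pool.Agent.HF.H78

open Pool.Agent.Glue Pool.Agent.FB Pool.Agent.CD Pool.Agent.RTF

/-- `K / N` is poly-Z: there is a finite subnormal series from `K` to `N` with factors that embed in
the integers. -/
inductive PolyZ {G : Type} [Group G] (N : Subgroup G) : Subgroup G → Prop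
  | base : PolyZ N N
  | step (K K' : Subgroup G) (χ : G → ℤ)
      (hmul : ∀ a ∈ K, ∀ b ∈ K, χ (a * b) = χ a + χ b)
      (hker : ∀ a, a ∈ K' ↔ a ∈ K ∧ χ a = 0) (h : PolyZ N K') : PolyZ N K

/-- A finite series of subgroups given by integral characters, from the whole group to a normal
subgroup. -/
structure PZ (G : Type) [Group G] where
  h : ℕ
  P : ℕ → Subgroup G
  chi : ℕ → G → ℤ
  top : P 0 = ⊤
  mul : ∀ j < h, ∀ a b, a ∈ P j → b ∈ P j → chi j (a * b) = chi j a + chi j b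
  succ : ∀ j < h, ∀ a, a ∈ P (j + 1) ↔ a ∈ P j ∧ chi j a = 0
  normal : (P h).Normal

theorem PZ.polyZ {G : Type} [Group G] (T : PZ G) : PolyZ (T.P T.h) ⊤ := by
  have key : ∀ d j, j + d = T.h → PolyZ (T.P T.h) (T.P j) := by
    intro d
    induction d with
    | zero =>
      intro j hj
      rw [add_zero] at hj
      rw [hj]
      exact PolyZ.base
    | succ d ih =>
      intro j hj
      refine PolyZ.step _ (T.P (j + 1)) (T.chi j) (fun a ha b hb => T.mul j (by omega) a b ha hb)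
        (T.succ j (by omega)) (ih (j + 1) (by omega))
  rw [← T.top]
  exact key T.h 0 (by omega)

/-- A step of the series with a transversal element. -/
structure Stp {G : Type} [Group G] (K K' : Subgroup G) (χ : G → ℤ) (t : G) : Prop where
  mul : ∀ a ∈ K, ∀ b ∈ K, χ (a * b) = χ a + χ b
  ker : ∀ a, a ∈ K' ↔ a ∈ K ∧ χ a = 0
  mem : t ∈ K
  one : χ t = 1

/-- Induction principle. -/
theorem PolyZ.ind {G : Type} [Group G] {N : Subgroup G} {Q : Subgroup G → Prop} (h0 : Q N)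
    (h1 : ∀ K K' χ t, Stp K K' χ t → N ≤ K' → Q K' → Q K) {K : Subgroup G} (h : PolyZ N K) :
    N ≤ K ∧ Q K := by
  induction h with
  | base => exact ⟨le_rfl, h0⟩
  | step K K' χ hmul hker h ih =>
    have hK' : K' ≤ K := fun a ha => ((hker a).1 ha).1
    refine ⟨ih.1.trans hK', ?_⟩
    have hχ1 : χ 1 = 0 := by
      have := hmul 1 K.one_mem 1 K.one_mem
      rw [mul_one] at this
      linarith
    have hχinv : ∀ a ∈ K, χ a⁻¹ = - χ a := by
      intro a ha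
      have := hmul a ha a⁻¹ (K.inv_mem ha)
      rw [mul_inv_cancel, hχ1] at this
      linarith
    by_cases hz : ∀ a ∈ K, χ a = 0
    · have : K' = K := by
        ext a
        exact ⟨fun ha => ((hker a).1 ha).1, fun ha => (hker a).2 ⟨ha, hz a ha⟩⟩
      rw [← this]
      exact ih.2
    · push Not at hz
      classical
      have hex : ∃ n : ℕ, 0 < n ∧ ∃ a ∈ K, χ a = n := by
        obtain ⟨a, ha, h2⟩ := hz
        rcases lt_or_gt_of_ne h2 with h3 | h3
        · refine ⟨(-χ a).toNat, by omega, a⁻¹, K.inv_mem ha, ?_⟩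
          rw [hχinv a ha]
          omega
        · exact ⟨(χ a).toNat, by omega, a, ha, by omega⟩
      obtain ⟨hd0, t, ht, hχt⟩ := Nat.find_spec hex
      set d := Nat.find hex with hd
      have hmin : ∀ n : ℕ, n < d → ¬ (0 < n ∧ ∃ a ∈ K, χ a = n) := fun n hn => Nat.find_min hex hn
      have hpow : ∀ n : ℤ, χ (t ^ n) = n * d := by
        have hnat : ∀ n : ℕ, χ (t ^ n) = n * d := by
          intro n
          induction n with
          | zero => simp [hχ1]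
          | succ n ihn =>
            rw [pow_succ, hmul _ (K.pow_mem ht n) _ ht, ihn, hχt]
            push_cast
            ring
        intro n
        rcases Int.eq_nat_or_neg n with ⟨k, rfl | rfl⟩
        · rw [zpow_natCast, hnat]
        · rw [zpow_neg, zpow_natCast, hχinv _ (K.pow_mem ht k), hnat]
          ring
      have hdvd : ∀ a ∈ K, (d : ℤ) ∣ χ a := by
        intro a ha
        by_contra hnd
        have h3 : χ (a * t ^ (-(χ a / d))) = χ a % d := by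
          rw [hmul _ ha _ (K.zpow_mem ht _), hpow]
          have := Int.emod_add_mul_ediv (χ a) d
          linarith
        have h4 : 0 ≤ χ a % d := Int.emod_nonneg _ (by omega)
        have h5 : χ a % d < d := Int.emod_lt_of_pos _ (by omega)
        have h6 : χ a % d ≠ 0 := fun h => hnd (Int.dvd_of_emod_eq_zero h)
        refine hmin (χ a % d).toNat (by omega) ⟨by omega, a * t ^ (-(χ a / d)),
          K.mul_mem ha (K.zpow_mem ht _), ?_⟩
        rw [h3]
        omega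
      refine h1 K K' (fun a => χ a / d) t ⟨?_, ?_, ht, ?_⟩ ih.1 ih.2
      · intro a ha b hb
        rw [hmul a ha b hb, Int.add_ediv_of_dvd_left (hdvd a ha)]
      · intro a
        rw [hker]
        constructor
        · rintro ⟨h2, h3⟩
          exact ⟨h2, by simp [h3]⟩
        · rintro ⟨h2, h3⟩
          refine ⟨h2, ?_⟩
          have := Int.ediv_mul_cancel (hdvd a h2)
          rw [← this]
          change χ a / d = 0 at h3
          rw [h3, zero_mul]
      · show χ t / d = 1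
        rw [hχt]
        exact Int.ediv_self (by omega)

namespace Stp

variable {G : Type} [Group G] {K K' : Subgroup G} {χ : G → ℤ} {t : G} (S : Stp K K' χ t)
include S

theorem le : K' ≤ K := fun a ha => ((S.ker a).1 ha).1

theorem chi_one : χ 1 = 0 := by
  have := S.mul 1 K.one_mem 1 K.one_mem
  rw [mul_one] at this
  linarith

theorem chi_inv {a : G} (ha : a ∈ K) : χ a⁻¹ = - χ a := by
  have := S.mul a ha a⁻¹ (K.inv_mem ha)
  rw [mul_inv_cancel, S.chi_one] at this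
  linarith

theorem tmem (n : ℤ) : t ^ n ∈ K := K.zpow_mem S.mem n

theorem chi_t (n : ℤ) : χ (t ^ n) = n := by
  have hnat : ∀ n : ℕ, χ (t ^ n) = n := by
    intro n
    induction n with
    | zero => simp [S.chi_one]
    | succ n ihn =>
      rw [pow_succ, S.mul _ (K.pow_mem S.mem n) _ S.mem, ihn, S.one]
      push_cast
      ring
  rcases Int.eq_nat_or_neg n with ⟨k, rfl | rfl⟩
  · rw [zpow_natCast, hnat]
  · rw [zpow_neg, zpow_natCast, S.chi_inv (K.pow_mem S.mem k), hnat]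

theorem chi_zero {a : G} (ha : a ∈ K') : χ a = 0 := ((S.ker a).1 ha).2

theorem mem' {a : G} (ha : a ∈ K) (h : χ a = 0) : a ∈ K' := (S.ker a).2 ⟨ha, h⟩

/-- Conjugation preserves the kernel. -/
theorem conj {a g : G} (hg : g ∈ K) (ha : a ∈ K') : g * a * g⁻¹ ∈ K' := by
  refine S.mem' (K.mul_mem (K.mul_mem hg (S.le ha)) (K.inv_mem hg)) ?_
  rw [S.mul _ (K.mul_mem hg (S.le ha)) _ (K.inv_mem hg), S.mul _ hg _ (S.le ha), S.chi_inv hg,
    S.chi_zero ha]
  ring

theorem conjt {a : G} (n : ℤ) (ha : a ∈ K') : t ^ n * a * t ^ (-n) ∈ K' := by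
  rw [zpow_neg]
  exact S.conj (S.tmem n) ha

end Stp

/-! ## Finite index -/

variable {G : Type} [Group G]

theorem fc_iff (S K : Subgroup G) : S.relIndex K ≠ 0 ↔
    ∃ R : Finset G, ∀ x ∈ K, ∃ r ∈ R, r⁻¹ * x ∈ S := by
  classical
  constructor
  · intro h
    have : (S.subgroupOf K).FiniteIndex := ⟨h⟩
    have : Finite (K ⧸ S.subgroupOf K) := inferInstance
    have := Fintype.ofFinite (K ⧸ S.subgroupOf K)
    refine ⟨Finset.univ.image fun q : K ⧸ S.subgroupOf K => ((q.out : K) : G), ?_⟩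
    intro x hx
    refine ⟨_, Finset.mem_image_of_mem _ (Finset.mem_univ (QuotientGroup.mk ⟨x, hx⟩)), ?_⟩
    have h1 := QuotientGroup.mk_out_eq_mul (S.subgroupOf K) ⟨x, hx⟩
    obtain ⟨s, hs⟩ := h1
    have h2 : (((QuotientGroup.mk (⟨x, hx⟩ : K) : K ⧸ S.subgroupOf K).out : K) : G)
        = x * ((s : K) : G) := by
      rw [hs]
      rfl
    rw [h2, mul_inv_rev, mul_assoc, inv_mul_cancel, mul_one]
    exact S.inv_mem (Subgroup.mem_subgroupOf.1 s.2)
  · rintro ⟨R, hR⟩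
    have hf : ∀ q : K ⧸ S.subgroupOf K, ∃ r : {r // r ∈ R}, r.1⁻¹ * ((q.out : K) : G) ∈ S := by
      intro q
      obtain ⟨r, hr, h⟩ := hR _ q.out.2
      exact ⟨⟨r, hr⟩, h⟩
    choose f hf using hf
    have hinj : Function.Injective f := by
      intro q q' h
      have h1 := hf q
      have h2 := hf q'
      rw [← h] at h2
      have h3 : ((q.out : K) : G)⁻¹ * ((q'.out : K) : G) ∈ S := by
        have := S.mul_mem (S.inv_mem h1) h2
        have e : ((f q).1⁻¹ * ((q.out : K) : G))⁻¹ * ((f q).1⁻¹ * ((q'.out : K) : G)) =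
          ((q.out : K) : G)⁻¹ * ((q'.out : K) : G) := by group
        rwa [e] at this
      rw [← Quotient.out_eq' q, ← Quotient.out_eq' q']
      exact QuotientGroup.eq.2 (Subgroup.mem_subgroupOf.2 h3)
    have : Finite (K ⧸ S.subgroupOf K) := Finite.of_injective f hinj
    have : (S.subgroupOf K).FiniteIndex := Subgroup.finiteIndex_of_finite_quotient
    exact Subgroup.FiniteIndex.index_ne_zero

/-- The largest subgroup of `S` normalised by `K`. -/
theorem exists_core (S K : Subgroup G) (h : S.relIndex K ≠ 0) : ∃ C : Subgroup G, C ≤ S ∧ C ≤ K ∧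
    (∀ k ∈ K, ∀ x ∈ C, k * x * k⁻¹ ∈ C) ∧ C.relIndex K ≠ 0 ∧
    ∀ N : Subgroup G, N ≤ S → N ≤ K → (∀ k ∈ K, ∀ x ∈ N, k * x * k⁻¹ ∈ N) → N ≤ C := by
  have : (S.subgroupOf K).FiniteIndex := ⟨h⟩
  have hcm : (((S.subgroupOf K).normalCore).map K.subtype).subgroupOf K =
      (S.subgroupOf K).normalCore :=
    Subgroup.comap_map_eq_self_of_injective K.subtype_injective _
  refine ⟨((S.subgroupOf K).normalCore).map K.subtype, ?_, ?_, ?_, ?_, ?_⟩
  · rintro _ ⟨x, hx, rfl⟩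
    exact Subgroup.mem_subgroupOf.1 (Subgroup.normalCore_le _ hx)
  · rintro _ ⟨x, hx, rfl⟩
    exact x.2
  · rintro k hk _ ⟨x, hx, rfl⟩
    refine ⟨⟨k, hk⟩ * x * ⟨k, hk⟩⁻¹, ?_, rfl⟩
    exact (Subgroup.normalCore_normal (S.subgroupOf K)).conj_mem x hx ⟨k, hk⟩
  · unfold Subgroup.relIndex
    rw [hcm]
    exact Subgroup.FiniteIndex.index_ne_zero
  · intro N hNS hNK hN x hx
    refine ⟨⟨x, hNK hx⟩, ?_, rfl⟩
    intro k
    exact Subgroup.mem_subgroupOf.2 (hNS (hN k k.2 x hx))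

/-! ## Finite generation -/

/-- `K` is finitely generated modulo `N`. -/
def Fgm (N K : Subgroup G) : Prop :=
  ∃ X : Finset G, (∀ x ∈ X, x ∈ K) ∧ ∀ L : Subgroup G, N ≤ L → (∀ x ∈ X, x ∈ L) → K ≤ L

theorem fgm_step {N K K' : Subgroup G} {χ : G → ℤ} {t : G} (S : Stp K K' χ t) (h : Fgm N K') :
    Fgm N K := by
  classical
  obtain ⟨X, hX, hL⟩ := h
  refine ⟨insert t X, ?_, ?_⟩
  · intro x hx
    rcases Finset.mem_insert.1 hx with rfl | hx
    · exact S.mem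
    · exact S.le (hX x hx)
  · intro L hN h x hx
    have h1 := hL L hN fun x hx => h x (Finset.mem_insert_of_mem hx)
    have ht := h t (Finset.mem_insert_self t X)
    have h2 : x * t ^ (-(χ x)) ∈ K' := by
      refine S.mem' (K.mul_mem hx (S.tmem _)) ?_
      rw [S.mul _ hx _ (S.tmem _), S.chi_t]
      ring
    have h3 := L.mul_mem (h1 h2) (L.zpow_mem ht (χ x))
    rwa [mul_assoc, ← zpow_add, neg_add_cancel, zpow_zero, mul_one] at h3

theorem fgm_of_polyZ {N K : Subgroup G} (h : PolyZ N K) : Fgm N K :=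
  (PolyZ.ind (Q := Fgm N) ⟨∅, by simp, fun L hL _ => hL⟩
    (fun K K' χ t S _ h => fgm_step S h) h).2

/-- A power of `t` normalises a given subgroup of finite index of `K'`. -/
theorem exists_pow {N K K' : Subgroup G} {χ : G → ℤ} {t : G} (S : Stp K K' χ t)
    (hN : N.Normal) (hfg : Fgm N K') {K1 : Subgroup G} (hK1 : K1 ≤ K')
    (hn : ∀ k ∈ K', ∀ x ∈ K1, k * x * k⁻¹ ∈ K1) (hNK1 : N ≤ K1) (hfi : K1.relIndex K' ≠ 0) :
    ∃ M : ℕ, 0 < M ∧ ∀ y ∈ K', y ∈ K1 ↔ t ^ (M : ℤ) * y * t ^ (-(M : ℤ)) ∈ K1 := by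
  classical
  obtain ⟨X, hX, hgen⟩ := hfg
  have : (K1.subgroupOf K').FiniteIndex := ⟨hfi⟩
  have : Finite (K' ⧸ K1.subgroupOf K') := inferInstance
  let φ : ℕ → {x // x ∈ X} → K' ⧸ K1.subgroupOf K' := fun j x =>
    QuotientGroup.mk ⟨t ^ (j : ℤ) * x.1 * t ^ (-(j : ℤ)), S.conjt j (hX x.1 x.2)⟩
  obtain ⟨i, j, hij, hφ⟩ : ∃ i j, i < j ∧ φ i = φ j := by
    obtain ⟨i, j, hij, h⟩ := Finite.exists_ne_map_eq_of_infinite φ
    rcases lt_or_gt_of_ne hij with h1 | h1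
    · exact ⟨i, j, h1, h⟩
    · exact ⟨j, i, h1, h.symm⟩
  have hcj : ∀ a b : G, a ∈ K' → b ∈ K1 → a⁻¹ * b * a ∈ K1 := by
    intro a b ha hb
    have := hn a⁻¹ (K'.inv_mem ha) b hb
    rwa [inv_inv] at this
  -- the equaliser
  let Λ : Subgroup G :=
    { carrier := {x | x ∈ K' ∧
        (t ^ (i : ℤ) * x * t ^ (-(i : ℤ)))⁻¹ * (t ^ (j : ℤ) * x * t ^ (-(j : ℤ))) ∈ K1}
      mul_mem' := by
        rintro x y ⟨hx, hx2⟩ ⟨hy, hy2⟩
        refine ⟨K'.mul_mem hx hy, ?_⟩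
        have e : (t ^ (i : ℤ) * (x * y) * t ^ (-(i : ℤ)))⁻¹ *
            (t ^ (j : ℤ) * (x * y) * t ^ (-(j : ℤ))) =
            ((t ^ (i : ℤ) * y * t ^ (-(i : ℤ)))⁻¹ *
            ((t ^ (i : ℤ) * x * t ^ (-(i : ℤ)))⁻¹ * (t ^ (j : ℤ) * x * t ^ (-(j : ℤ)))) *
            (t ^ (i : ℤ) * y * t ^ (-(i : ℤ)))) *
            ((t ^ (i : ℤ) * y * t ^ (-(i : ℤ)))⁻¹ * (t ^ (j : ℤ) * y * t ^ (-(j : ℤ)))) := by
          group
        rw [e]
        exact K1.mul_mem (hcj _ _ (S.conjt i hy) hx2) hy2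
      one_mem' := by
        refine ⟨K'.one_mem, ?_⟩
        have e : (t ^ (i : ℤ) * 1 * t ^ (-(i : ℤ)))⁻¹ * (t ^ (j : ℤ) * 1 * t ^ (-(j : ℤ))) = 1 := by
          group
        change _ ∈ K1
        rw [e]
        exact K1.one_mem
      inv_mem' := by
        rintro x ⟨hx, hx2⟩
        refine ⟨K'.inv_mem hx, ?_⟩
        have e : (t ^ (i : ℤ) * x⁻¹ * t ^ (-(i : ℤ)))⁻¹ * (t ^ (j : ℤ) * x⁻¹ * t ^ (-(j : ℤ))) =
            (t ^ (i : ℤ) * x⁻¹ * t ^ (-(i : ℤ)))⁻¹ *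
            ((t ^ (i : ℤ) * x * t ^ (-(i : ℤ)))⁻¹ * (t ^ (j : ℤ) * x * t ^ (-(j : ℤ))))⁻¹ *
            (t ^ (i : ℤ) * x⁻¹ * t ^ (-(i : ℤ))) := by
          group
        change _ ∈ K1
        rw [e]
        exact hcj _ _ (S.conjt i (K'.inv_mem hx)) (K1.inv_mem hx2) }
  have hΛ : K' ≤ Λ := by
    refine hgen Λ ?_ ?_
    · intro x hx
      have hc : ∀ g : G, g * x * g⁻¹ ∈ K1 := fun g => hNK1 (hN.conj_mem x hx g)
      refine ⟨hK1 (hNK1 hx), K1.mul_mem (K1.inv_mem ?_) ?_⟩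
      · have := hc (t ^ (i : ℤ))
        rwa [← zpow_neg] at this
      · have := hc (t ^ (j : ℤ))
        rwa [← zpow_neg] at this
    · intro x hx
      refine ⟨hX x hx, ?_⟩
      have := congrFun hφ ⟨x, hx⟩
      exact Subgroup.mem_subgroupOf.1 (QuotientGroup.eq.1 this)
  have heq : ∀ x ∈ K', t ^ (i : ℤ) * x * t ^ (-(i : ℤ)) ∈ K1 ↔
      t ^ (j : ℤ) * x * t ^ (-(j : ℤ)) ∈ K1 := by
    intro x hx
    have h1 := (hΛ hx).2
    constructor
    · intro h2
      have := K1.mul_mem h2 h1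
      rwa [mul_inv_cancel_left] at this
    · intro h2
      have := K1.mul_mem h2 (K1.inv_mem h1)
      rwa [mul_inv_rev, inv_inv, mul_inv_cancel_left] at this
  refine ⟨j - i, by omega, ?_⟩
  intro y hy
  have h1 := heq (t ^ (-(i : ℤ)) * y * t ^ (i : ℤ)) (by
    have := S.conjt (-(i : ℤ)) hy
    rwa [neg_neg] at this)
  have e1 : t ^ (i : ℤ) * (t ^ (-(i : ℤ)) * y * t ^ (i : ℤ)) * t ^ (-(i : ℤ)) = y := by group
  have e2 : t ^ (j : ℤ) * (t ^ (-(i : ℤ)) * y * t ^ (i : ℤ)) * t ^ (-(j : ℤ)) =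
      t ^ (((j - i : ℕ) : ℤ)) * y * t ^ (-((j - i : ℕ) : ℤ)) := by
    rw [Nat.cast_sub hij.le]
    group
  rw [e1, e2] at h1
  exact h1

/-- Lifting of finite index subgroups. -/
theorem lift {N K K' : Subgroup G} {χ : G → ℤ} {t : G} (S : Stp K K' χ t)
    (hN : N.Normal) (hfg : Fgm N K') {K1 : Subgroup G} (hK1 : K1 ≤ K')
    (hn : ∀ k ∈ K', ∀ x ∈ K1, k * x * k⁻¹ ∈ K1) (hNK1 : N ≤ K1) (hfi : K1.relIndex K' ≠ 0)
    (m : ℕ) (hm : 0 < m) : ∃ C : Subgroup G, C ≤ K ∧ (∀ k ∈ K, ∀ x ∈ C, k * x * k⁻¹ ∈ C) ∧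
      C.relIndex K ≠ 0 ∧ N ≤ C ∧ (∀ x ∈ C, x ∈ K' → x ∈ K1) ∧ ∀ x ∈ C, (m : ℤ) ∣ χ x := by
  classical
  obtain ⟨M, hM, hMt⟩ := exists_pow S hN hfg hK1 hn hNK1 hfi
  have hNK : N ≤ K := hNK1.trans (hK1.trans S.le)
  -- powers of `t ^ M` normalise `K1`
  have hmul : ∀ n : ℕ, ∀ y ∈ K', y ∈ K1 ↔
      t ^ ((n * M : ℕ) : ℤ) * y * t ^ (-((n * M : ℕ) : ℤ)) ∈ K1 := by
    intro n
    induction n with
    | zero =>
      intro y hy
      simp
    | succ n ih =>
      intro y hy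
      rw [hMt y hy, ih _ (S.conjt _ hy)]
      have e : t ^ ((n * M : ℕ) : ℤ) * (t ^ (M : ℤ) * y * t ^ (-(M : ℤ))) *
          t ^ (-((n * M : ℕ) : ℤ)) = t ^ (((n + 1) * M : ℕ) : ℤ) * y *
          t ^ (-(((n + 1) * M : ℕ) : ℤ)) := by
        push_cast
        group
      rw [e]
  have hz : ∀ n : ℤ, ((m * M : ℕ) : ℤ) ∣ n → ∀ y ∈ K1, t ^ n * y * t ^ (-n) ∈ K1 := by
    rintro n ⟨c, rfl⟩ y hy
    rcases Int.eq_nat_or_neg c with ⟨k, rfl | rfl⟩
    · have := (hmul (k * m) y (hK1 hy)).1 hy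
      have e : ((m * M : ℕ) : ℤ) * (k : ℤ) = ((k * m * M : ℕ) : ℤ) := by
        push_cast
        ring
      rw [e]
      exact this
    · have e : ((m * M : ℕ) : ℤ) * -(k : ℤ) = -((k * m * M : ℕ) : ℤ) := by
        push_cast
        ring
      rw [e]
      have hy' : t ^ (-((k * m * M : ℕ) : ℤ)) * y * t ^ (-(-((k * m * M : ℕ) : ℤ))) ∈ K' :=
        S.conjt _ (hK1 hy)
      rw [hmul (k * m) _ hy']
      have e2 : t ^ ((k * m * M : ℕ) : ℤ) * (t ^ (-((k * m * M : ℕ) : ℤ)) * y *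
          t ^ (-(-((k * m * M : ℕ) : ℤ)))) * t ^ (-((k * m * M : ℕ) : ℤ)) = y := by
        group
      rw [e2]
      exact hy
  have hchi_t : ∀ n : ℤ, χ (t ^ n) = n := S.chi_t
  -- the subgroup generated by `K1` and a power of `t`
  let T : Subgroup G :=
    { carrier := {x | x ∈ K ∧ ((m * M : ℕ) : ℤ) ∣ χ x ∧ x * t ^ (-χ x) ∈ K1}
      mul_mem' := by
        rintro x y ⟨hx, hx2, hx3⟩ ⟨hy, hy2, hy3⟩
        have hxy : χ (x * y) = χ x + χ y := S.mul x hx y hy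
        refine ⟨K.mul_mem hx hy, ?_, ?_⟩
        · rw [hxy]
          exact dvd_add hx2 hy2
        · rw [hxy]
          have e : x * y * t ^ (-(χ x + χ y)) = (x * t ^ (-χ x)) *
              (t ^ (χ x) * (y * t ^ (-χ y)) * t ^ (-χ x)) := by group
          rw [e]
          exact K1.mul_mem hx3 (hz _ hx2 _ hy3)
      one_mem' := by
        refine ⟨K.one_mem, ?_, ?_⟩
        · rw [S.chi_one]
          exact dvd_zero _
        · rw [S.chi_one]
          simp
      inv_mem' := by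
        rintro x ⟨hx, hx2, hx3⟩
        have hxy : χ x⁻¹ = - χ x := S.chi_inv hx
        refine ⟨K.inv_mem hx, ?_, ?_⟩
        · rw [hxy]
          exact (dvd_neg).2 hx2
        · rw [hxy, neg_neg]
          have e : x⁻¹ * t ^ (χ x) = t ^ (-χ x) * (x * t ^ (-χ x))⁻¹ * t ^ (-(-χ x)) := by group
          rw [e]
          exact hz _ ((dvd_neg).2 hx2) _ (K1.inv_mem hx3) }
  have hTfi : T.relIndex K ≠ 0 := by
    rw [fc_iff]
    obtain ⟨R, hR⟩ := (fc_iff K1 K').1 hfi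
    refine ⟨(Finset.range (m * M) ×ˢ R).image fun x => t ^ (x.1 : ℤ) * x.2, ?_⟩
    intro x hx
    have hL : (0 : ℤ) < ((m * M : ℕ) : ℤ) := by
      exact_mod_cast Nat.mul_pos hm hM
    set L : ℤ := ((m * M : ℕ) : ℤ) with hLdef
    have h1 : 0 ≤ χ x % L := Int.emod_nonneg _ (by omega)
    have h2 : χ x % L < L := Int.emod_lt_of_pos _ hL
    have h3 : χ x % L + L * (χ x / L) = χ x := Int.emod_add_mul_ediv _ _
    -- `x = t ^ i0 * y * t ^ (L q)`
    have hy : t ^ (-(χ x % L)) * x * t ^ (-(L * (χ x / L))) ∈ K' := by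
      refine S.mem' (K.mul_mem (K.mul_mem (S.tmem _) hx) (S.tmem _)) ?_
      rw [S.mul _ (K.mul_mem (S.tmem _) hx) _ (S.tmem _), S.mul _ (S.tmem _) _ hx, S.chi_t,
        S.chi_t]
      linarith
    obtain ⟨r, hr, hr2⟩ := hR _ hy
    refine ⟨t ^ (((χ x % L).toNat : ℕ) : ℤ) * r, ?_, ?_⟩
    · rw [Finset.mem_image]
      refine ⟨((χ x % L).toNat, r), ?_, rfl⟩
      rw [Finset.mem_product]
      refine ⟨Finset.mem_range.2 (by omega), hr⟩
    · have e0 : (((χ x % L).toNat : ℕ) : ℤ) = χ x % L := Int.toNat_of_nonneg h1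
      rw [e0]
      have e1 : (t ^ (χ x % L) * r)⁻¹ * x =
          (r⁻¹ * (t ^ (-(χ x % L)) * x * t ^ (-(L * (χ x / L))))) * t ^ (L * (χ x / L)) := by
        group
      rw [e1]
      have hk1 : r⁻¹ * (t ^ (-(χ x % L)) * x * t ^ (-(L * (χ x / L)))) ∈ K := S.le (hK1 hr2)
      have hchi : χ (r⁻¹ * (t ^ (-(χ x % L)) * x * t ^ (-(L * (χ x / L)))) *
          t ^ (L * (χ x / L))) = L * (χ x / L) := by
        rw [S.mul _ hk1 _ (S.tmem _), S.chi_zero (hK1 hr2), S.chi_t, zero_add]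
      refine ⟨K.mul_mem hk1 (S.tmem _), ?_, ?_⟩
      · rw [hchi]
        exact dvd_mul_right _ _
      · rw [hchi, mul_assoc, ← zpow_add, add_neg_cancel, zpow_zero, mul_one]
        exact hr2
  obtain ⟨C, hCT, hCK, hCn, hCfi, hCmax⟩ := exists_core T K hTfi
  refine ⟨C, hCK, hCn, hCfi, ?_, ?_, ?_⟩
  · refine hCmax N ?_ hNK fun k _ x hx => hN.conj_mem x hx k
    intro x hx
    have h0 : χ x = 0 := S.chi_zero (hK1 (hNK1 hx))
    refine ⟨hNK hx, ?_, ?_⟩
    · rw [h0]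
      exact dvd_zero _
    · rw [h0, neg_zero, zpow_zero, mul_one]
      exact hNK1 hx
  · intro x hx hx'
    have h1 := (hCT hx).2.2
    rwa [S.chi_zero hx', neg_zero, zpow_zero, mul_one] at h1
  · intro x hx
    have h1 := (hCT hx).2.1
    refine dvd_trans ?_ h1
    push_cast
    exact dvd_mul_right _ _

/-- Separation of elements. -/
theorem sepK {N : Subgroup G} (hN : N.Normal) {K : Subgroup G} (h : PolyZ N K) :
    ∀ s ∈ K, s ∉ N → ∃ C : Subgroup G, C ≤ K ∧ (∀ k ∈ K, ∀ x ∈ C, k * x * k⁻¹ ∈ C) ∧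
      C.relIndex K ≠ 0 ∧ N ≤ C ∧ s ∉ C := by
  have key := (PolyZ.ind (N := N) (Q := fun K => Fgm N K ∧ ∀ s ∈ K, s ∉ N → ∃ C : Subgroup G,
      C ≤ K ∧ (∀ k ∈ K, ∀ x ∈ C, k * x * k⁻¹ ∈ C) ∧
      C.relIndex K ≠ 0 ∧ N ≤ C ∧ s ∉ C) ⟨⟨∅, by simp, fun L hL _ => hL⟩, ?_⟩ ?_ h).2.2
  · exact key
  · intro s hs hs'
    exact absurd hs hs'
  · rintro K K' χ t S hNK' ⟨hfg, ih⟩
    refine ⟨fgm_step S hfg, ?_⟩
    intro s hs hs'
    by_cases h0 : χ s = 0
    · obtain ⟨C', hC'1, hC'2, hC'3, hC'4, hC'5⟩ := ih s (S.mem' hs h0) hs'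
      obtain ⟨C, h1, h2, h3, h4, h5, -⟩ := lift S hN hfg hC'1 hC'2 hC'4 hC'3 1 one_pos
      exact ⟨C, h1, h2, h3, h4, fun h6 => hC'5 (h5 s h6 (S.mem' hs h0))⟩
    · obtain ⟨C, h1, h2, h3, h4, -, h6⟩ := lift S hN hfg (K1 := K') le_rfl
        (fun k hk x hx => K'.mul_mem (K'.mul_mem hk hx) (K'.inv_mem hk)) hNK'
        (by rw [Subgroup.relIndex_self]; exact one_ne_zero) ((χ s).natAbs + 1) (Nat.succ_pos _)
      refine ⟨C, h1, h2, h3, h4, fun h7 => ?_⟩
      have h8 := h6 s h7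
      apply h0
      refine Int.eq_zero_of_abs_lt_dvd h8 ?_
      push_cast
      rw [Int.abs_eq_natAbs]
      push_cast
      omega

/-- Separation of a finite set. -/
theorem sepf {N : Subgroup G} (hN : N.Normal) (h : PolyZ N ⊤) (S : Finset G)
    (hS : ∀ s ∈ S, s ∉ N) : ∃ K : Subgroup G, K.Normal ∧ K.FiniteIndex ∧ N ≤ K ∧
    ∀ s ∈ S, s ∉ K := by
  classical
  induction S using Finset.induction_on with
  | empty => exact ⟨⊤, inferInstance, inferInstance, le_top, by simp⟩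
  | insert a S ha ih =>
    obtain ⟨K, h1, h2, h3, h4⟩ := ih fun s hs => hS s (Finset.mem_insert_of_mem hs)
    obtain ⟨C, -, c2, c3, c4, c5⟩ := sepK hN h a (Subgroup.mem_top a)
      (hS a (Finset.mem_insert_self a S))
    have : C.Normal := ⟨fun x hx k => c2 k (Subgroup.mem_top k) x hx⟩
    have : C.FiniteIndex := ⟨by
      rw [Subgroup.relIndex_top_right] at c3
      exact c3⟩
    refine ⟨K ⊓ C, inferInstance, inferInstance, le_inf h3 c4, ?_⟩
    intro s hs h5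
    rcases Finset.mem_insert.1 hs with rfl | hs
    · exact c5 h5.2
    · exact h4 s hs h5.1

end Pool.Agent.HF.H78
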