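import Pool.Agent.Helper66_RTF.Til
import Pool.Agent.Helper78_HF.Fol

/-!
# Small kernels on finite quotients of groups with a poly-Z quotient
-/

namespace Pool.Agent.HF.H78

open Pool.Agent.Glue Pool.Agent.FB Pool.Agent.CD Pool.Agent.RTF

variable {G : Type} [Group G]

/-- A matrix over the group ring that is injective on finitely supported functions on `G` modulo `N`
has small kernels on deep finite quotients. -/
theorem til {N : Subgroup G} (hN : N.Normal) (hP : PolyZ N ⊤) (r : ℕ)
    (a : Fin r → Fin r → G →₀ F2)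
    (hinj : ∀ f : Fin r → (G ⧸ N) → F2, (∀ l, (Function.support (f l)).Finite) →
      f ∈ kerQ N a → f = 0) (ε : ℝ) (hε : 0 < ε) :
    ∃ K1 : Subgroup G, K1.Normal ∧ K1.FiniteIndex ∧ N ≤ K1 ∧ ∀ K : Subgroup G, K.Normal →
      K.FiniteIndex → N ≤ K → K ≤ K1 → (Module.finrank F2 (kerQ K a) : ℝ) ≤ ε * K.index := by
  classical
  let E : Finset G := Finset.univ.biUnion fun l => Finset.univ.biUnion fun l' =>
    (a l l').support.image fun h => h⁻¹
  have hEm : ∀ l l', ∀ h ∈ (a l l').support, h⁻¹ ∈ E := by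
    intro l l' h hh
    simp only [E, Finset.mem_biUnion, Finset.mem_univ, true_and]
    exact ⟨l, l', Finset.mem_image_of_mem _ hh⟩
  have hr : (0 : ℝ) < (r : ℝ) + 1 := by positivity
  obtain ⟨B, B0, K1, hBne, hB0, hcard, hBE, hBinj, hK1n, hK1f, hMK1, hK1⟩ :=
    fol hN hP E (ε / (r + 1)) (by positivity)
  refine ⟨K1, hK1n, hK1f, hMK1, ?_⟩
  intro K hKn hKf hMK hKK1
  obtain ⟨H, hcov, huniq⟩ := hK1 K hKn hKf hMK hKK1
  -- the index
  have hindex : K.index = H.card * B.card := by
    let φ : {x // x ∈ H} × {x // x ∈ B} → G ⧸ K := fun x => ((x.1.1 * x.2.1 : G) : G ⧸ K)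
    have hφ : Function.Bijective φ := by
      constructor
      · rintro ⟨⟨h, hh⟩, ⟨b, hb⟩⟩ ⟨⟨h', hh'⟩, ⟨b', hb'⟩⟩ heq
        obtain ⟨h1, h2⟩ := huniq h hh b hb h' hh' b' hb' (QuotientGroup.eq.1 heq)
        subst h1 h2
        rfl
      · intro x
        induction x using QuotientGroup.induction_on with
        | H g =>
          obtain ⟨h, hh, b, hb, h2⟩ := hcov g
          exact ⟨⟨⟨h, hh⟩, ⟨b, hb⟩⟩, QuotientGroup.eq.2 h2⟩
    have h1 := Nat.card_congr (Equiv.ofBijective φ hφ)
    rw [Nat.card_prod, Nat.card_eq_fintype_card, Nat.card_eq_fintype_card,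
      Fintype.card_coe, Fintype.card_coe] at h1
    rw [h1]
    rfl
  -- the dimension
  have hdim : Module.finrank F2 (kerQ K a) ≤ r * (H.card * (B \ B0).card) := by
    let Φ : kerQ K a →ₗ[F2] (Fin r × {x // x ∈ H} × {x // x ∈ B \ B0} → F2) :=
      { toFun := fun f x => f.1 x.1 ((x.2.1.1 * x.2.2.1 : G) : G ⧸ K)
        map_add' := fun f f' => rfl
        map_smul' := fun c f => rfl }
    have hΦ : Function.Injective Φ := by
      rw [← LinearMap.ker_eq_bot, LinearMap.ker_eq_bot']
      intro f hf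
      apply Subtype.ext
      refine H66.core N K hN hKn hMK r a hinj B B0 H ?_ hcov huniq f.1 f.2 ?_
      · intro b hb l l' h hh
        exact hBE b hb _ (hEm l l' h hh)
      · intro l h hh b hb hb0
        exact congrFun hf (l, ⟨h, hh⟩, ⟨b, Finset.mem_sdiff.2 ⟨hb, hb0⟩⟩)
    have h1 := LinearMap.finrank_le_finrank_of_injective hΦ
    refine h1.trans ?_
    rw [Module.finrank_fintype_fun_eq_card, Fintype.card_prod, Fintype.card_prod, Fintype.card_fin,
      Fintype.card_coe, Fintype.card_coe]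
  have hsd : ((B \ B0).card : ℝ) = B.card - B0.card := by
    rw [Finset.card_sdiff_of_subset hB0, Nat.cast_sub (Finset.card_le_card hB0)]
  have h2 : (Module.finrank F2 (kerQ K a) : ℝ) ≤ r * (H.card * (B \ B0).card) := by
    exact_mod_cast hdim
  refine h2.trans ?_
  rw [hindex, hsd]
  push_cast
  have h3 : (H.card : ℝ) * ((B.card : ℝ) - B0.card) ≤ H.card * (ε / (r + 1) * B.card) :=
    mul_le_mul_of_nonneg_left hcard (Nat.cast_nonneg _)
  have h4 : (r : ℝ) * (H.card * ((B.card : ℝ) - B0.card)) ≤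
      r * (H.card * (ε / (r + 1) * B.card)) := mul_le_mul_of_nonneg_left h3 (Nat.cast_nonneg _)
  refine h4.trans ?_
  have h5 : (r : ℝ) * (H.card * (ε / (r + 1) * B.card)) =
      (r / (r + 1)) * (ε * (H.card * B.card)) := by
    field_simp
  rw [h5]
  have h6 : (r : ℝ) / (r + 1) ≤ 1 := by
    rw [div_le_one hr]
    linarith
  have h7 : 0 ≤ ε * ((H.card : ℝ) * B.card) := by positivity
  calc (r : ℝ) / (r + 1) * (ε * (H.card * B.card)) ≤ 1 * (ε * (H.card * B.card)) :=
        mul_le_mul_of_nonneg_right h6 h7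
    _ = ε * (H.card * B.card) := one_mul _

end Pool.Agent.HF.H78
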